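import Pool.Agent.H23.CR.Stm

/-! Crew CR, part MRK: Markov's inequality. -/

set_option autoImplicit false

namespace Pool.Agent.H23.CR

open Finset Filter Pool.Agent.H999R2.KSat Pool.Agent.H320R2.CT

theorem p_MRK (hKER : S_KER) (hDEC : S_DEC) (hMOM : S_MOM) : S_MRK := by
  intro n m w k A hw hk hA
  classical
  have hne : Nonempty (Ed n) :=
    ⟨⟨(⟨0, by omega⟩, ⟨1, by omega⟩), by simp [Fin.ext_iff]⟩⟩
  choose K hK using fun F : Fin m → Ed n => (hKER n m w F).1
  have hKu : ∀ F I, IsK w F I → K F = I := fun F I h => (hKER n m w F).2 _ _ (hK F) h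
  have hcard : ∀ I : Finset (Fin n), (∀ v ∈ I, v.val < w) → I.card ≤ w := by
    intro I hI
    calc I.card = (I.image Fin.val).card :=
          (Finset.card_image_of_injective _ Fin.val_injective).symm
      _ ≤ (Finset.range w).card := Finset.card_le_card (by
          intro x hx
          rw [Finset.mem_image] at hx
          obtain ⟨v, hv, rfl⟩ := hx
          exact Finset.mem_range.2 (hI v hv))
      _ = w := Finset.card_range w
  have h1 : ∀ (F : Fin m → Ed n) (Q : Prop), ind Q = ∑ I, ind (IsK w F I ∧ Q) := by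
    intro F Q
    rw [Finset.sum_eq_single (K F)]
    · exact ind_congr ⟨fun h => ⟨hK F, h⟩, fun h => h.2⟩
    · intro I _ hI
      exact ind_false fun h => hI (hKu F I h.1).symm
    · intro h
      exact absurd (Finset.mem_univ _) h
  have h2 : ∀ (F : Fin m → Ed n) (g : Finset (Fin n) → ℝ),
      ∑ I, ind (IsK w F I) * g I = g (K F) := by
    intro F g
    rw [Finset.sum_eq_single (K F)]
    · rw [ind_true (hK F), one_mul]
    · intro I _ hI
      rw [ind_false fun h => hI (hKu F I h).symm, zero_mul]
    · intro h
      exact absurd (Finset.mem_univ _) h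
  have h3 : E (fun F => pc (n - (K F).card) k (rem F (K F))) ≤ pc n (k + 1) m := by
    calc E (fun F => pc (n - (K F).card) k (rem F (K F)))
        = E (fun F => ∑ I, ind (IsK w F I) * pc (n - I.card) k (rem F I)) :=
          E_congr fun F => (h2 F fun I => pc (n - I.card) k (rem F I)).symm
      _ = ∑ I, E (fun F => ind (IsK w F I) * pc (n - I.card) k (rem F I)) := E_sum _ _
      _ ≤ ∑ I, E (fun F => ind (IsK w F I ∧ (SolC F : Set (Co n (k + 1))).Nonempty)) := by
          refine Finset.sum_le_sum fun I _ => ?_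
          by_cases hI : I.card + 2 ≤ n
          · exact hDEC n m w k I hI hk
          · refine E_mono fun F => ?_
            have h : ¬ IsK w F I := fun h => hI (by have := hcard I h.1; omega)
            rw [ind_false h, ind_false (fun h' => h h'.1), zero_mul]
      _ = E (fun F => ∑ I, ind (IsK w F I ∧ (SolC F : Set (Co n (k + 1))).Nonempty)) :=
          (E_sum _ _).symm
      _ = pc n (k + 1) m := E_congr fun F => (h1 F _).symm
  have hmono : ∀ n' : ℕ, Antitone (fun a => pc n' k a) := fun n' =>
    antitone_nat_of_succ_le fun a => pc_succ_le n' k a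
  have hA1 : (0 : ℝ) < (A : ℝ) + 1 := by positivity
  have h4 : ∀ F : Fin m → Ed n, 1 / 2 * (1 - (rem F (K F) : ℝ) / (A + 1)) ≤
      pc (n - (K F).card) k (rem F (K F)) := by
    intro F
    by_cases hr : rem F (K F) ≤ A
    · have h5 := hA (n - (K F).card) (by have := hcard _ (hK F).1; omega) (by omega)
      have h6 : pc (n - (K F).card) k A ≤ pc (n - (K F).card) k (rem F (K F)) := hmono _ hr
      have h7 : (0 : ℝ) ≤ (rem F (K F) : ℝ) / (A + 1) := by positivity
      linarith
    · have h5 : ((A : ℝ) + 1) ≤ (rem F (K F) : ℝ) := by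
        have : A + 1 ≤ rem F (K F) := by omega
        exact_mod_cast this
      have h6 : 1 ≤ (rem F (K F) : ℝ) / (A + 1) := by
        rw [le_div_iff₀ hA1]
        linarith
      have h7 := pc_nonneg (n - (K F).card) k (rem F (K F))
      linarith
  have h5 := (E_mono h4).trans h3
  have h6 : E (fun F : Fin m → Ed n => 1 / 2 * (1 - (rem F (K F) : ℝ) / (A + 1))) =
      1 / 2 * (1 - E (fun F : Fin m → Ed n => (rem F (K F) : ℝ)) / (A + 1)) := by
    rw [E_mul_left, E_sub, E_const]
    congr 2
    rw [div_eq_mul_inv, ← E_mul_right]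
    exact E_congr fun F => div_eq_mul_inv _ _
  rw [h6] at h5
  refine le_trans ?_ h5
  have h7 := hMOM n m w (by omega) (by omega) K hK
  have h8 := div_le_div_of_nonneg_right h7 hA1.le
  linarith

end Pool.Agent.H23.CR
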