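import Pool.Agent.H23.CR.Stm

/-! Crew CR, part STP: the step. -/

set_option autoImplicit false

namespace Pool.Agent.H23.CR

open Finset Filter Pool.Agent.H999R2.KSat Pool.Agent.H320R2.CT

private lemma stp_ineq {ρ β x y : ℝ} (hρ : 0 < ρ) (hβ0 : 0 < β) (hβ1 : β * (1 + 32 * ρ) = 1 / 8)
    (hx1 : x ≤ β) (hx2 : 3 / 4 * β ≤ x) (hy0 : 0 ≤ y) (hy : y ≤ ρ + ρ * β / 8) :
    y * ((1 - x) ^ 2 + x ^ 2 + 16 * y * x ^ 2) ≤ (1 - β / 4) * ((ρ - ρ * β / 8) * (1 - x)) := by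
  have hβ2 : β ≤ 1 / 8 := by nlinarith [mul_pos hβ0 hρ]
  have hx0 : 0 < x := by linarith
  have h1x : 7 / 8 ≤ 1 - x := by linarith
  have hy1 : y ≤ 2 * ρ := by nlinarith
  have h1 : x * (1 + 16 * y) ≤ 1 / 8 := by
    calc x * (1 + 16 * y) ≤ β * (1 + 32 * ρ) := by
          apply mul_le_mul hx1 (by linarith) (by linarith) hβ0.le
      _ = 1 / 8 := hβ1
  have hE : (1 - x) ^ 2 + x ^ 2 + 16 * y * x ^ 2 ≤ (1 - x) * (1 - 6 * x / 7) := by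
    have h2 : x ^ 2 + 16 * y * x ^ 2 ≤ x * (1 / 8) := by
      have := mul_le_mul_of_nonneg_left h1 hx0.le
      nlinarith
    have h3 : x * (1 / 8) ≤ x * ((1 - x) / 7) := mul_le_mul_of_nonneg_left (by linarith) hx0.le
    nlinarith
  have hE0 : 0 ≤ (1 - x) ^ 2 + x ^ 2 + 16 * y * x ^ 2 := by positivity
  have h4 : (1 + β / 8) * (1 - 6 * x / 7) ≤ (1 - β / 4) * (1 - β / 8) := by
    have : 0 ≤ β * β := mul_nonneg hβ0.le hβ0.le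
    have : 0 ≤ β * x := mul_nonneg hβ0.le hx0.le
    nlinarith
  calc y * ((1 - x) ^ 2 + x ^ 2 + 16 * y * x ^ 2)
      ≤ (ρ + ρ * β / 8) * ((1 - x) * (1 - 6 * x / 7)) :=
        mul_le_mul hy hE hE0 (by positivity)
    _ = ρ * (1 - x) * ((1 + β / 8) * (1 - 6 * x / 7)) := by ring
    _ ≤ ρ * (1 - x) * ((1 - β / 4) * (1 - β / 8)) :=
        mul_le_mul_of_nonneg_left h4 (mul_nonneg hρ.le (by linarith))
    _ = (1 - β / 4) * ((ρ - ρ * β / 8) * (1 - x)) := by ring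

theorem p_STP (hMRK : S_MRK) : S_STP := by
  intro k ρ hk hρ hlim
  obtain ⟨β, hβ⟩ : ∃ β : ℝ, β = 1 / (8 * (1 + 32 * ρ)) := ⟨_, rfl⟩
  have hβ0 : 0 < β := by rw [hβ]; positivity
  have hβ1 : β * (1 + 32 * ρ) = 1 / 8 := by
    rw [hβ]
    field_simp
  have hβ2 : β ≤ 1 / 8 := by nlinarith [mul_pos hβ0 hρ]
  have e1 : ρ / (64 * (1 + 32 * ρ)) = ρ * β / 8 := by
    rw [hβ]
    field_simp
    norm_num
  rw [e1]
  have hρβ : 0 < ρ * β := mul_pos hρ hβ0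
  have hr0 : 0 ≤ ρ - ρ * β / 8 := by nlinarith
  have hr := hlim (ρ - ρ * β / 8) (by linarith)
  obtain ⟨N0, hN0⟩ := eventually_atTop.1 ((tendsto_order.1 hr).1 (1 / 2) (by norm_num))
  refine ⟨β / 8, by positivity, ?_⟩
  filter_upwards [eventually_ge_atTop (2 * N0 + ⌈4 / β⌉₊ + 4)] with n hn
  have hn1 : 4 / β ≤ (n : ℝ) := by
    calc 4 / β ≤ (⌈4 / β⌉₊ : ℝ) := Nat.le_ceil _
      _ ≤ (n : ℝ) := by exact_mod_cast (by omega : ⌈4 / β⌉₊ ≤ n)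
  have hn2 : 4 ≤ β * n := by
    rw [div_le_iff₀ hβ0] at hn1
    linarith
  have hn4 : (4 : ℝ) ≤ n := by exact_mod_cast (by omega : 4 ≤ n)
  have hnpos : (0 : ℝ) < n := by linarith
  obtain ⟨w, hw⟩ : ∃ w : ℕ, w = ⌊β * (n : ℝ)⌋₊ := ⟨_, rfl⟩
  have hw1 : (w : ℝ) ≤ β * n := by rw [hw]; exact Nat.floor_le (by positivity)
  have hw2 : β * n < w + 1 := by rw [hw]; exact Nat.lt_floor_add_one _
  have hw8 : 8 * w ≤ n := by
    have : (8 : ℝ) * w ≤ n := by nlinarith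
    exact_mod_cast this
  have hcast : ((n - w : ℕ) : ℝ) = n - w := Nat.cast_sub (by omega)
  obtain ⟨A, hA⟩ : ∃ A : ℕ, A = ⌊(ρ - ρ * β / 8) * ((n - w : ℕ) : ℝ)⌋₊ := ⟨_, rfl⟩
  have hA1 : (ρ - ρ * β / 8) * ((n : ℝ) - w) < A + 1 := by
    rw [← hcast, hA]
    exact Nat.lt_floor_add_one _
  obtain ⟨m, hm⟩ : ∃ m : ℕ, m = ⌊(ρ + ρ * β / 8) * (n : ℝ)⌋₊ := ⟨_, rfl⟩
  have hm1 : (m : ℝ) ≤ (ρ + ρ * β / 8) * n := by rw [hm]; exact Nat.floor_le (by positivity)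
  have key := hMRK n m w k A (by omega) hk (by
    intro n' h1 h2
    have h3 : 1 / 2 < pc n' k ⌊(ρ - ρ * β / 8) * (n' : ℝ)⌋₊ := hN0 n' (by omega)
    have hmono : Antitone (fun a => pc n' k a) :=
      antitone_nat_of_succ_le fun a => pc_succ_le n' k a
    have h4 : A ≤ ⌊(ρ - ρ * β / 8) * (n' : ℝ)⌋₊ := by
      rw [hA]
      apply Nat.floor_mono
      apply mul_le_mul_of_nonneg_left _ hr0
      exact_mod_cast h1
    exact h3.le.trans (hmono h4))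
  rw [← hm]
  refine le_trans ?_ key
  have hAp : (0 : ℝ) < (A : ℝ) + 1 := by positivity
  have hx1 : (w : ℝ) / n ≤ β := by
    rw [div_le_iff₀ hnpos]
    exact hw1
  have hx2 : 3 / 4 * β ≤ (w : ℝ) / n := by
    rw [le_div_iff₀ hnpos]
    nlinarith
  have hy : (m : ℝ) / n ≤ ρ + ρ * β / 8 := by
    rw [div_le_iff₀ hnpos]
    exact hm1
  have h5 := stp_ineq hρ hβ0 hβ1 hx1 hx2 (by positivity) hy
  have e2 : (m : ℝ) * (((n : ℝ) - w) ^ 2 / n ^ 2 + (w : ℝ) ^ 2 / n ^ 2 +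
      16 * m * (w : ℝ) ^ 2 / n ^ 3) = n * ((m : ℝ) / n * ((1 - (w : ℝ) / n) ^ 2 +
        ((w : ℝ) / n) ^ 2 + 16 * ((m : ℝ) / n) * ((w : ℝ) / n) ^ 2)) := by
    field_simp
  have e3 : (n : ℝ) * ((1 - β / 4) * ((ρ - ρ * β / 8) * (1 - (w : ℝ) / n))) =
      (1 - β / 4) * ((ρ - ρ * β / 8) * ((n : ℝ) - w)) := by
    field_simp
  have h6 : (m : ℝ) * (((n : ℝ) - w) ^ 2 / n ^ 2 + (w : ℝ) ^ 2 / n ^ 2 +
      16 * m * (w : ℝ) ^ 2 / n ^ 3) / (A + 1) ≤ 1 - β / 4 := by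
    rw [div_le_iff₀ hAp, e2]
    refine (mul_le_mul_of_nonneg_left h5 hnpos.le).trans ?_
    rw [e3]
    exact mul_le_mul_of_nonneg_left hA1.le (by linarith)
  linarith

end Pool.Agent.H23.CR
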